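import Pool.Agent.N659.HB.Stm8
import Pool.Agent.N75.HB.ZR

/-!
# Project SD, part BL: phases of self-energies close to a point
-/

set_option autoImplicit false

namespace Pool.Agent.N591.SD

open Pool.Agent.N659.HB Pool.Agent.W792.LL Pool.Agent.W792.WA
open Pool.Agent.N75.HB (cayx_zero bwd bound)

noncomputable section

lemma ne_one {s S₀ : ℂ} {δ : ℝ}
    (h : ‖Complex.I * (s + 1) - S₀ * (s - 1)‖ ≤ δ * ‖s - 1‖) : s - 1 ≠ 0 := by
  intro h0
  have h2 : s = 1 := sub_eq_zero.1 h0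
  rw [h0, norm_zero, mul_zero, mul_zero, sub_zero, h2, norm_mul, Complex.norm_I, one_mul] at h
  have h3 : ‖(1 : ℂ) + 1‖ = 2 := by
    have : (1 : ℂ) + 1 = 2 := by norm_num
    rw [this]
    simp
  rw [h3] at h
  norm_num at h

lemma cayx_inv {s : ℂ} (h0 : s - 1 ≠ 0) : s = cayx (Complex.I * (s + 1) / (s - 1)) 0 := by
  rw [cayx_zero]
  have e1 : Complex.I * (s + 1) / (s - 1) + Complex.I = 2 * Complex.I * s / (s - 1) := by
    field_simp
    ring
  have e2 : Complex.I * (s + 1) / (s - 1) - Complex.I = 2 * Complex.I / (s - 1) := by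
    field_simp
    ring
  rw [e1, e2]
  have hI : Complex.I ≠ 0 := Complex.I_ne_zero
  field_simp

lemma close {s S₀ : ℂ} {δ : ℝ} (h : ‖Complex.I * (s + 1) - S₀ * (s - 1)‖ ≤ δ * ‖s - 1‖) :
    ‖Complex.I * (s + 1) / (s - 1) - S₀‖ ≤ δ := by
  have h0 := ne_one h
  have hpos : 0 < ‖s - 1‖ := norm_pos_iff.2 h0
  have e : Complex.I * (s + 1) / (s - 1) - S₀ =
      (Complex.I * (s + 1) - S₀ * (s - 1)) / (s - 1) := by
    field_simp
  rw [e, norm_div, div_le_iff₀ hpos]
  exact h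

lemma im_le {S S₀ : ℂ} {δ η : ℝ} (him : S₀.im ≤ -η) (hδ : δ ≤ η / 2) (h : ‖S - S₀‖ ≤ δ) :
    S.im ≤ -(η / 2) := by
  have h1 : (S - S₀).im ≤ ‖S - S₀‖ := (le_abs_self _).trans (Complex.abs_im_le_norm _)
  rw [Complex.sub_im] at h1
  linarith

lemma norm_le {S S₀ : ℂ} {δ : ℝ} (h : ‖S - S₀‖ ≤ δ) : ‖S‖ ≤ ‖S₀‖ + δ := by
  have h1 : ‖S‖ ≤ ‖S₀‖ + ‖S - S₀‖ := by
    have := norm_add_le S₀ (S - S₀)
    rwa [add_sub_cancel] at this
  linarith

lemma mem_of {s S S₀ : ℂ} {δ : ℝ} (hI : S - Complex.I ≠ 0) (hs : s = cayx S 0)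
    (h : ‖S - S₀‖ ≤ δ) : ‖Complex.I * (s + 1) - S₀ * (s - 1)‖ ≤ δ * ‖s - 1‖ := by
  rw [cayx_zero] at hs
  have e : Complex.I * (s + 1) - S₀ * (s - 1) = (S - S₀) * (s - 1) := by
    rw [hs]
    field_simp
    ring
  rw [e, norm_mul]
  exact mul_le_mul_of_nonneg_right h (norm_nonneg _)

theorem main : S_BL := by
  intro d S₀ δ η hη him hδ hδη
  have hS₀ : η ≤ ‖S₀‖ := by
    have h1 := Complex.abs_im_le_norm S₀
    have h2 := neg_abs_le S₀.im
    linarith
  have hback : ∀ s : C(UnitAddTorus (Fin d), ℂ),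
      (∀ k, ∃ S : ℂ, s k = cayx S 0 ∧ ‖S - S₀‖ ≤ δ) → s ∈ ZB d S₀ δ := by
    intro s h k
    obtain ⟨S, hs, hS⟩ := h k
    refine mem_of ?_ hs hS
    intro h1
    have h2 := congrArg Complex.im h1
    rw [Complex.sub_im, Complex.I_im, Complex.zero_im] at h2
    have h3 := im_le him hδη hS
    linarith
  refine ⟨?_, ?_, ?_, hback⟩
  · have h1 : ZB d S₀ δ = ⋂ k, {s : C(UnitAddTorus (Fin d), ℂ) |
        ‖Complex.I * (s k + 1) - S₀ * (s k - 1)‖ ≤ δ * ‖s k - 1‖} := by
      ext s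
      simp only [ZB, Set.mem_ofPred_eq, Set.mem_iInter]
    rw [h1]
    refine isClosed_iInter fun k => ?_
    have hc : Continuous fun s : C(UnitAddTorus (Fin d), ℂ) => s k :=
      continuous_eval_const k
    refine isClosed_le ?_ ?_
    · exact ((continuous_const.mul (hc.add continuous_const)).sub
        (continuous_const.mul (hc.sub continuous_const))).norm
    · exact continuous_const.mul (hc.sub continuous_const).norm
  · refine ⟨ContinuousMap.const _ (cayx S₀ 0), hback _ fun k => ⟨S₀, rfl, ?_⟩⟩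
    rw [sub_self, norm_zero]
    exact hδ.le
  · intro s hs
    have hS : ∀ k, ‖Complex.I * (s k + 1) / (s k - 1) - S₀‖ ≤ δ := fun k => close (hs k)
    constructor
    · have h1 : 0 ≤ 1 - η / (‖S₀‖ + δ + 1) ^ 2 := by
        have h2 : 0 ≤ ‖S₀‖ := norm_nonneg _
        rw [sub_nonneg, div_le_one (by positivity)]
        nlinarith
      rw [ContinuousMap.norm_le _ h1]
      intro k
      obtain ⟨-, b2, b3⟩ := bwd (η := η / 2) (by linarith) (cayx_inv (ne_one (hs k)))
        (norm_le (hS k)) (im_le him hδη (hS k))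
      have h2 := bound (η := η / 2) (by linarith) (by linarith) b2 b3
      have e : 2 * (η / 2) = η := by ring
      rwa [e] at h2
    · have hc : Continuous fun k => Complex.I * (s k + 1) / (s k - 1) := by
        refine Continuous.div ?_ ?_ fun k => ne_one (hs k)
        · exact continuous_const.mul (s.continuous.add continuous_const)
        · exact s.continuous.sub continuous_const
      exact ⟨⟨_, hc⟩, fun k => ⟨cayx_inv (ne_one (hs k)), hS k, im_le him hδη (hS k)⟩⟩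

end

end Pool.Agent.N591.SD
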